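import Mathlib
import Pool.Agent.H87.GapDef
import Pool.Agent.H87.Gap

namespace Pool.Agent.Results.MP_ec11a7_an.Yes

open Pool.Agent.H87.Gap

/-- There is a constant `α > 1/2` such that opening `< α` forces equal dimensions. -/
theorem result : ∃ α : ℝ, 1 / 2 < α ∧
    ∀ (𝕜 E : Type) [RCLike 𝕜] [NormedAddCommGroup E] [NormedSpace 𝕜 E] (G₁ G₂ : Submodule 𝕜 E),
      G₁ ≠ ⊥ → G₂ ≠ ⊥ → opening G₁ G₂ < α → dim G₁ = dim G₂ :=
  ⟨0.51, by norm_num, fun _ _ _ _ _ G₁ G₂ _ _ h => main G₁ G₂ h⟩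

end Pool.Agent.Results.MP_ec11a7_an.Yes
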